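import Pool.Agent.H37.UM.Stmts

/-! UM, module TSU: `T N` is symmetric and unimodal for `N ≥ 7`. -/

set_option autoImplicit false

namespace Pool.Agent.H37.UM

open PowerSeries Finset

namespace TSU

/-- the power series with the given list of coefficients -/
noncomputable def ps : List ℤ → ℤ⟦X⟧
  | [] => 0
  | a :: l => C a + X * ps l

/-- addition of lists -/
def la : List ℤ → List ℤ → List ℤ
  | [], l => l
  | a :: k, [] => a :: k
  | a :: k, b :: l => (a + b) :: la k l

/-- multiplication of lists -/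
def lm : List ℤ → List ℤ → List ℤ
  | [], _ => []
  | a :: k, l => la (l.map fun b => a * b) (0 :: lm k l)

lemma ps_la (k l : List ℤ) : ps (la k l) = ps k + ps l := by
  induction k generalizing l with
  | nil => simp [la, ps]
  | cons a k ih =>
    cases l with
    | nil => simp [la, ps]
    | cons b l =>
      rw [la, ps, ps, ps, ih, map_add]
      ring

lemma ps_map (a : ℤ) (l : List ℤ) : ps (l.map fun b => a * b) = C a * ps l := by
  induction l with
  | nil => simp [ps]
  | cons b l ih =>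
    rw [List.map_cons, ps, ps, ih, map_mul]
    ring

lemma ps_lm (k l : List ℤ) : ps (lm k l) = ps k * ps l := by
  induction k with
  | nil => simp [lm, ps]
  | cons a k ih =>
    rw [lm, ps_la, ps_map, ps, ps, ih, map_zero]
    ring

lemma coeff_ps (l : List ℤ) (k : ℕ) : coeff k (ps l) = l.getD k 0 := by
  induction l generalizing k with
  | nil => simp [ps]
  | cons a l ih =>
    rw [ps]
    cases k with
    | zero => simp
    | succ k =>
      rw [map_add, coeff_succ_X_mul, ih, coeff_C, if_neg (Nat.succ_ne_zero k), zero_add]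
      simp

lemma pv (v o : ℕ) (ho : ¬ 2 ∣ o) : padicValNat 2 (2 ^ v * o) = v := by
  have h0 : o ≠ 0 := by
    rintro rfl
    exact ho (dvd_zero 2)
  rw [padicValNat.mul (by positivity) h0, padicValNat.prime_pow,
    padicValNat.eq_zero_of_not_dvd ho, add_zero]

lemma opv (v o : ℕ) (ho : ¬ 2 ∣ o) : op (2 ^ v * o) = o := by
  rw [op, pv v o ho]
  exact Nat.mul_div_cancel_left _ (by positivity)

/-- the list of `iv n` -/
lemma ps_iv (n : ℕ) : ps (List.replicate n 1) = iv n := by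
  induction n with
  | zero => simp [ps, iv]
  | succ n ih =>
    rw [List.replicate_succ, ps, ih, iv, iv, Finset.sum_range_succ', Finset.mul_sum]
    simp [pow_succ', add_comm]

lemma ps_one_add (n : ℕ) : ps (1 :: (List.replicate n 0 ++ [1])) = 1 + X ^ (n + 1) := by
  have h : ∀ n : ℕ, ps (List.replicate n 0 ++ [1]) = X ^ n := by
    intro n
    induction n with
    | zero => simp [ps]
    | succ n ih =>
      rw [List.replicate_succ, List.cons_append, ps, ih]
      simp [pow_succ']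
  rw [ps, h]
  simp [pow_succ']

/-- the list of `F (2 ^ v * o)` -/
def lF (v o : ℕ) : List ℤ :=
  (List.range v).foldl (fun l a => lm l (1 :: (List.replicate (2 ^ (a + 1) * o - 1) 0 ++ [1])))
    (List.replicate o 1)

lemma F_eq (v o : ℕ) (ho : ¬ 2 ∣ o) : F (2 ^ v * o) = ps (lF v o) := by
  have h0 : o ≠ 0 := by
    rintro rfl
    exact ho (dvd_zero 2)
  rw [F, opv v o ho, pv v o ho]
  induction v with
  | zero => simp [lF, ps_iv]
  | succ v ih =>
    rw [Finset.prod_range_succ, ← mul_assoc, ih, lF, lF, List.range_succ, List.foldl_append]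
    simp only [List.foldl_cons, List.foldl_nil]
    rw [ps_lm, ps_one_add]
    congr 3
    have h1 : 1 ≤ 2 ^ (v + 1) * o := Nat.one_le_iff_ne_zero.2 (by positivity)
    omega

lemma F1 : F 1 = ps (lF 0 1) := F_eq 0 1 (by norm_num)
lemma F2 : F 2 = ps (lF 1 1) := F_eq 1 1 (by norm_num)
lemma F3 : F 3 = ps (lF 0 3) := F_eq 0 3 (by norm_num)
lemma F4 : F 4 = ps (lF 2 1) := F_eq 2 1 (by norm_num)
lemma F5 : F 5 = ps (lF 0 5) := F_eq 0 5 (by norm_num)
lemma F6 : F 6 = ps (lF 1 3) := F_eq 1 3 (by norm_num)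
lemma F7 : F 7 = ps (lF 0 7) := F_eq 0 7 (by norm_num)
lemma F8 : F 8 = ps (lF 3 1) := F_eq 3 1 (by norm_num)
lemma F9 : F 9 = ps (lF 0 9) := F_eq 0 9 (by norm_num)

/-- the list of `T 7` -/
def l7 : List ℤ := lm (lF 0 7) (lm (lF 1 3) (lm (lF 0 5) (lm (lF 2 1) (lm (lF 0 3)
  (lm (lF 1 1) (lF 0 1))))))

lemma op1 : op 1 = 1 := opv 0 1 (by norm_num)
lemma op2 : op 2 = 1 := opv 1 1 (by norm_num)
lemma op3 : op 3 = 3 := opv 0 3 (by norm_num)
lemma op4 : op 4 = 1 := opv 2 1 (by norm_num)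
lemma op5 : op 5 = 5 := opv 0 5 (by norm_num)
lemma op6 : op 6 = 3 := opv 1 3 (by norm_num)
lemma op7 : op 7 = 7 := opv 0 7 (by norm_num)
lemma op8 : op 8 = 1 := opv 3 1 (by norm_num)
lemma op9 : op 9 = 9 := opv 0 9 (by norm_num)

lemma T_succ (n : ℕ) : T (n + 1) = F (n + 1) * T n := by
  rw [T, T, U, U, Finset.prod_Ioc_succ_top (Nat.zero_le n), mul_comm]

lemma dg_succ (n : ℕ) : dg (n + 1) = dg n + (2 * (n + 1) - op (n + 1) - 1) := by
  rw [dg, dg, dU, dU, Finset.sum_Ioc_succ_top (Nat.zero_le n)]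

lemma T_zero : T 0 = 1 := by simp [T, U]

lemma dg_zero : dg 0 = 0 := by simp [dg, dU]

lemma T7 : T 7 = ps l7 := by
  rw [T_succ 6, T_succ 5, T_succ 4, T_succ 3, T_succ 2, T_succ 1, T_succ 0, T_zero, F1, F2, F3,
    F4, F5, F6, F7, l7, mul_one]
  simp only [ps_lm]

lemma dg7 : dg 7 = 28 := by
  rw [dg_succ 6, dg_succ 5, dg_succ 4, dg_succ 3, dg_succ 2, dg_succ 1, dg_succ 0, dg_zero, op1,
    op2, op3, op4, op5, op6, op7]

lemma T8 : T 8 = ps (lm (lF 3 1) l7) := by
  rw [T_succ 7, T7, F8, ps_lm]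

lemma T9 : T 9 = ps (lm (lF 0 9) (lm (lF 3 1) l7)) := by
  rw [T_succ 8, T8, F9]
  simp only [ps_lm]

lemma dg8 : dg 8 = 42 := by
  rw [dg_succ 7, dg7, op8]

lemma dg9 : dg 9 = 50 := by
  rw [dg_succ 8, dg8, op9]

lemma df_ps (l : List ℤ) (k : ℕ) : df (ps l) k = (lm [1, -1] l).getD k 0 := by
  rw [df, ← coeff_ps, ps_lm]
  congr 2
  simp [ps]
  ring

lemma mono_of (l : List ℤ) (D : ℕ)
    (h : (List.range (D / 2 + 1)).all (fun k => decide (0 ≤ (lm [1, -1] l).getD k 0)) = true)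
    (k : ℕ) (hk : 2 * k ≤ D) : 0 ≤ df (ps l) k := by
  rw [df_ps]
  rw [List.all_eq_true] at h
  exact of_decide_eq_true (h k (List.mem_range.2 (by omega)))

lemma m7 (k : ℕ) (hk : 2 * k ≤ dg 7) : 0 ≤ df (T 7) k := by
  rw [dg7] at hk
  rw [T7]
  exact mono_of _ 28 (by decide +kernel) k hk

lemma m8 (k : ℕ) (hk : 2 * k ≤ dg 8) : 0 ≤ df (T 8) k := by
  rw [dg8] at hk
  rw [T8]
  exact mono_of _ 42 (by decide +kernel) k hk

lemma m9 (k : ℕ) (hk : 2 * k ≤ dg 9) : 0 ≤ df (T 9) k := by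
  rw [dg9] at hk
  rw [T9]
  exact mono_of _ 50 (by decide +kernel) k hk

end TSU

theorem TSU_thm (h1 : TBStmt) (h2 : SUMStmt) (h3 : UUStmt) : TSUStmt := by
  intro N hN
  induction N using Nat.strong_induction_on with
  | _ N ih =>
    rcases Nat.lt_or_ge N 10 with h | h
    · have hS : Sym (dg N) (T N) := h3.1 0 N
      interval_cases N
      · exact { toSym := hS, mono := TSU.m7 }
      · exact { toSym := hS, mono := TSU.m8 }
      · exact { toSym := hS, mono := TSU.m9 }
    · have hs := h2.1 _ _ _ _ (h1 N (by omega)) (ih (N - 3) (by omega) (by omega))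
      have e1 := h3.2.2.2.2.1 0 (N - 3) N (Nat.zero_le _) (Nat.sub_le _ _)
      have e2 := h3.2.2.2.2.2.1 0 (N - 3) N (Nat.zero_le _) (Nat.sub_le _ _)
      rw [T] at hs
      rw [dg] at hs
      rw [e1, e2] at hs
      exact hs

end Pool.Agent.H37.UM
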